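import Pool.Agent.Q116.KR.Reg
import Pool.Agent.Q116.ZK.Forms

set_option autoImplicit false

/-!
Graphs without `K_{s,t}`: the regular form.
-/

namespace Q116.ZK

open Finset Filter SimpleGraph Q116.KR

/-- From a graph without `K_{s,t}` with more than `(q - 1) n` edges, `q` prime, to a relation with
all rows and columns of size `d ≤ q`. -/
theorem regular_of_dense' {V : Type} [Fintype V] [DecidableEq V] (G : SimpleGraph V)
    [DecidableRel G.Adj] (q d : ℕ) (hq : q.Prime)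
    (hdq : d ≤ q) (he : (q - 1) * Fintype.card V < G.edgeFinset.card) :
    ∃ (m : ℕ) (I : Fin m → Fin m → Prop), 0 < m ∧ m * q ≤ 2 * G.edgeFinset.card ∧
      (∀ s t, 1 ≤ s → 1 ≤ t → NoST G.Adj s t → NoST I s t) ∧
      (∀ a, {b | I a b}.ncard = d) ∧ (∀ b, {a | I a b}.ncard = d) := by
  classical
  have : Fact q.Prime := ⟨hq⟩
  obtain ⟨F, hFG, ⟨a0, b0, hab⟩, hdiv⟩ := Pool.TH815.GR.exists_mod G q he
  have hdeg : ∀ v, F.degree v = (F.neighborSet v).ncard := by
    intro v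
    rw [← F.card_neighborFinset_eq_degree, ← Set.ncard_coe_finset, F.coe_neighborFinset]
  have hdiv' : ∀ v, q ∣ F.degree v := fun v => by rw [hdeg]; exact hdiv v
  obtain ⟨W, iW, dW, E, dE, π, hcard, hsymm, hreg, hadj, hnb⟩ :=
    Pool.TH815.GR.split F q hq.pos hdiv'
  obtain ⟨R, dR, hRE, hR1, hR2⟩ := Pool.TH815.GR.exists_regular_sub d (q - d) E (by
    intro a
    rw [hreg a]
    omega) (by
    intro b
    have : (univ.filter fun a => E a b) = (univ.filter fun a => E b a) := by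
      ext a
      simp only [mem_filter, mem_univ, true_and]
      exact ⟨fun h => hsymm _ _ h, fun h => hsymm _ _ h⟩
    rw [this, hreg b]
    omega)
  set m := Fintype.card W with hm
  let e : Fin m ≃ W := (Fintype.equivFin W).symm
  have hmpos : 0 < m := by
    have h1 : 0 < F.degree a0 := by
      rw [F.degree_pos_iff_exists_adj]
      exact ⟨b0, hab⟩
    have h2 : F.degree a0 ≤ ∑ v, F.degree v :=
      single_le_sum (f := fun v => F.degree v) (fun _ _ => Nat.zero_le _) (mem_univ a0)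
    rw [← hcard] at h2
    exact Nat.pos_of_mul_pos_right (lt_of_lt_of_le h1 h2)
  refine ⟨m, fun a b => R (e a) (e b), hmpos, ?_, ?_, ?_, ?_⟩
  · rw [hcard, ← G.sum_degrees_eq_twice_card_edges]
    apply sum_le_sum
    intro v _
    exact SimpleGraph.degree_le_of_le hFG
  · rintro s t hr ht hG ⟨a, b, ha, hb, hab⟩
    have hab' : ∀ i j, E (e (a i)) (e (b j)) := fun i j => hRE _ _ (hab i j)
    refine hG ⟨fun i => π (e (a i)), fun j => π (e (b j)), ?_, ?_, fun i j =>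
      hFG (hadj _ _ (hab' i j))⟩
    · intro i j hij
      by_contra hne
      exact hnb _ _ _ (hsymm _ _ (hab' i ⟨0, ht⟩)) (hsymm _ _ (hab' j ⟨0, ht⟩))
        (fun h0 => hne (ha (e.injective h0))) hij
    · intro i j hij
      by_contra hne
      exact hnb _ _ _ (hab' ⟨0, hr⟩ i) (hab' ⟨0, hr⟩ j)
        (fun h0 => hne (hb (e.injective h0))) hij
  · intro a
    rw [← Set.ncard_image_of_injective _ e.injective, ← hR1 (e a), ← Set.ncard_coe_finset]
    congr 1
    ext w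
    simp only [Set.mem_image, coe_filter, mem_univ, true_and]
    constructor
    · rintro ⟨b, hb, rfl⟩
      exact hb
    · intro hw
      refine ⟨e.symm w, ?_, by simp⟩
      show R (e a) (e (e.symm w))
      rw [e.apply_symm_apply]
      exact hw
  · intro b
    rw [← Set.ncard_image_of_injective _ e.injective, ← hR2 (e b), ← Set.ncard_coe_finset]
    congr 1
    ext w
    simp only [Set.mem_image, coe_filter, mem_univ, true_and]
    constructor
    · rintro ⟨a, ha, rfl⟩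
      exact ha
    · intro hw
      refine ⟨e.symm w, ?_, by simp⟩
      show R (e (e.symm w)) (e b)
      rw [e.apply_symm_apply]
      exact hw

/-- the dense form with the exponent `1 + α` -/
def DenseForm (s t : ℕ) (α : ℝ) : Prop :=
  ∃ c : ℝ, 0 < c ∧ ∀ᶠ n : ℕ in atTop,
    c * (n : ℝ) ^ (1 + α) ≤ (extremalNumber n (KK s t) : ℝ)

/-- the regular form with the exponent `1 + α` -/
def RegForm (s t : ℕ) (α : ℝ) : Prop :=
  ∃ C : ℝ, ∀ d : ℕ, 1 ≤ d → ∃ (m : ℕ) (I : Fin m → Fin m → Prop), 0 < m ∧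
    (m : ℝ) ≤ C * (d : ℝ) ^ (1 / α) ∧ NoST I s t ∧ NoST I t s ∧
    (∀ a, {b | I a b}.ncard = d) ∧ (∀ b, {a | I a b}.ncard = d)

theorem regForm_of_denseForm' {s₀ t₀ : ℕ} (hs₀ : 1 ≤ s₀) (ht₀ : 1 ≤ t₀) {α : ℝ} (hα : 0 < α)
    (h : DenseForm s₀ t₀ α) : RegForm s₀ t₀ α := by
  classical
  obtain ⟨c, hc, h⟩ := h
  obtain ⟨N, hN⟩ := eventually_atTop.1 h
  obtain ⟨t, ht⟩ := exists_nat_ge (max (2 / c) ((N : ℝ) ^ α + 1))
  have ht1 : 2 / c ≤ (t : ℝ) := (le_max_left _ _).trans ht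
  have ht2 : (N : ℝ) ^ α + 1 ≤ t := (le_max_right _ _).trans ht
  have hNa : 0 ≤ (N : ℝ) ^ α := by positivity
  have ht4 : (1 : ℝ) ≤ t := by linarith
  have htpos : (0 : ℝ) < t := by linarith
  refine ⟨4 * (c * t + 1) * (t : ℝ) ^ (1 / α), fun d hd => ?_⟩
  have hd1 : (1 : ℝ) ≤ d := by exact_mod_cast hd
  obtain ⟨q, hq, hdq, hq2⟩ := Nat.exists_prime_lt_and_le_two_mul d (by omega)
  have htd : (1 : ℝ) ≤ t * d := by nlinarith
  set ρ : ℝ := (t * d : ℝ) ^ (1 / α) with hρ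
  have hρ1 : 1 ≤ ρ := Real.one_le_rpow htd (by positivity)
  set n : ℕ := ⌈ρ⌉₊ with hn
  have hρn : ρ ≤ n := Nat.le_ceil _
  have hn2 : (n : ℝ) ≤ 2 * ρ := by
    have := Nat.ceil_lt_add_one (by linarith : 0 ≤ ρ)
    linarith
  have hnpos' : (0 : ℝ) < n := by linarith
  have hnpos : 0 < n := by exact_mod_cast hnpos'
  have hρa : ρ ^ α = t * d := by
    rw [hρ, ← Real.rpow_mul (by positivity)]
    have : 1 / α * α = 1 := by field_simp
    rw [this, Real.rpow_one]
  have hnN : n ≥ N := by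
    have h1 : ((N : ℝ)) ≤ ρ := by
      have h2 : (N : ℝ) ^ α ≤ t * d := by
        have : (t : ℝ) * 1 ≤ t * d := mul_le_mul_of_nonneg_left hd1 htpos.le
        linarith
      have h3 := Real.rpow_le_rpow hNa h2 (by positivity : 0 ≤ 1 / α)
      rw [← Real.rpow_mul (Nat.cast_nonneg N)] at h3
      have : α * (1 / α) = 1 := by field_simp
      rw [this, Real.rpow_one] at h3
      exact h3
    have : (N : ℝ) ≤ n := h1.trans hρn
    exact_mod_cast this
  have hE := hN n hnN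
  obtain ⟨G, hG, hGe⟩ := exists_graph' (n := 0) (m := n) (KK_ne_bot' hs₀ ht₀)
  rw [← hGe] at hE
  have hpow : (n : ℝ) * (t * d) ≤ (n : ℝ) ^ (1 + α) := by
    rw [Real.rpow_add hnpos', Real.rpow_one, ← hρa]
    exact mul_le_mul_of_nonneg_left (Real.rpow_le_rpow (by linarith) hρn hα.le) hnpos'.le
  have hedge : (G.edgeFinset.card : ℝ) = (G.edgeSet.ncard : ℝ) := by
    rw [← SimpleGraph.coe_edgeFinset, Set.ncard_coe_finset]
  rw [← hedge] at hE
  have hct : 2 ≤ c * t := by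
    rw [div_le_iff₀ hc] at ht1
    linarith
  set s : ℝ := c * (n * (t * d)) with hs
  have hsE : s ≤ (G.edgeFinset.card : ℝ) :=
    (mul_le_mul_of_nonneg_left hpow hc.le).trans hE
  have hs0 : 0 ≤ s := by positivity
  obtain ⟨G', dG', hle, hcard⟩ := Pool.TH815.GR.exists_sub G ⌈s⌉₊ (Nat.ceil_le.2 hsE)
  have hG' : NoST G'.Adj s₀ t₀ := (noST_of_free hG).mono (fun a b hab => hle hab)
  have hlow : 2 * (d : ℝ) * n ≤ s := by
    have : 2 * ((n : ℝ) * d) ≤ c * t * (n * d) := mul_le_mul_of_nonneg_right hct (by positivity)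
    rw [hs]
    linarith
  have hlow2 : 2 * d * n ≤ ⌈s⌉₊ := by
    have h1 : 2 * (d : ℝ) * n ≤ (⌈s⌉₊ : ℝ) := hlow.trans (Nat.le_ceil _)
    exact_mod_cast h1
  have hlt : (q - 1) * Fintype.card (Fin n) < G'.edgeFinset.card := by
    rw [Fintype.card_fin, hcard]
    have h1 : 1 ≤ q := hq.one_lt.le
    calc (q - 1) * n < q * n := Nat.mul_lt_mul_of_pos_right (by omega) hnpos
      _ ≤ 2 * d * n := Nat.mul_le_mul_right _ hq2
      _ ≤ _ := hlow2
  obtain ⟨m, I, hm, hmq, hI, hI2⟩ := regular_of_dense' G' q d hq hdq.le hlt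
  refine ⟨m, I, hm, ?_, hI _ _ hs₀ ht₀ hG', hI _ _ ht₀ hs₀ (NoST.symm_of_symm hG'), hI2⟩
  rw [hcard] at hmq
  have hmq' : (m : ℝ) * q ≤ 2 * (⌈s⌉₊ : ℝ) := by exact_mod_cast hmq
  have hceil : (⌈s⌉₊ : ℝ) ≤ s + 1 := (Nat.ceil_lt_add_one hs0).le
  have hqd : (d : ℝ) ≤ q := by exact_mod_cast hdq.le
  have hn1 : (1 : ℝ) ≤ n := by exact_mod_cast hnpos
  have hnd : (1 : ℝ) ≤ n * d := by nlinarith
  have hmd : (m : ℝ) * d ≤ 2 * (c * t + 1) * n * d := by
    calc (m : ℝ) * d ≤ m * q := mul_le_mul_of_nonneg_left hqd (Nat.cast_nonneg _)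
      _ ≤ 2 * (s + 1) := hmq'.trans (by linarith)
      _ ≤ 2 * (c * t + 1) * n * d := by
        rw [hs]
        nlinarith
  have hm2 : (m : ℝ) ≤ 2 * (c * t + 1) * n := le_of_mul_le_mul_right hmd (by linarith)
  have hrr : ρ = (t : ℝ) ^ (1 / α) * (d : ℝ) ^ (1 / α) := by
    rw [hρ, Real.mul_rpow (by positivity) (by positivity)]
  calc (m : ℝ) ≤ 2 * (c * t + 1) * n := hm2
    _ ≤ 2 * (c * t + 1) * (2 * ρ) := mul_le_mul_of_nonneg_left hn2 (by positivity)
    _ = _ := by rw [hrr]; ring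

/-- Disjoint copies of a relation. -/
lemma copies' {m k s t : ℕ} (hs : 1 ≤ s) (ht : 1 ≤ t) {I : Fin m → Fin m → Prop}
    (hI : NoST I s t) :
    NoST (fun (x y : Fin m × Fin k) => x.2 = y.2 ∧ I x.1 y.1) s t := by
  rintro ⟨a, b, ha, hb, hab⟩
  have h1 : ∀ i, (a i).2 = (b ⟨0, ht⟩).2 := fun i => (hab i _).1
  have h2 : ∀ j, (b j).2 = (b ⟨0, ht⟩).2 := fun j => (hab ⟨0, hs⟩ j).1.symm.trans (h1 _)
  refine hI ⟨fun i => (a i).1, fun j => (b j).1, ?_, ?_, fun i j => (hab i j).2⟩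
  · intro i j hij
    exact ha (Prod.ext hij ((h1 i).trans (h1 j).symm))
  · intro i j hij
    exact hb (Prod.ext hij ((h2 i).trans (h2 j).symm))

theorem denseForm_of_regForm' {s t : ℕ} (hs : 1 ≤ s) (ht : 1 ≤ t) {α : ℝ} (hα : 0 < α)
    (h : RegForm s t α) : DenseForm s t α := by
  classical
  obtain ⟨C, hC⟩ := h
  have hC0 : 0 < C := by
    obtain ⟨m, I, hm, hm2, -⟩ := hC 1 le_rfl
    have : (0 : ℝ) < m := by exact_mod_cast hm
    simp at hm2
    linarith
  refine ⟨1 / (8 * (2 * C) ^ α), by positivity, ?_⟩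
  filter_upwards [eventually_ge_atTop ⌈2 * C⌉₊] with n hn
  have hnC : 2 * C ≤ n := (Nat.le_ceil _).trans (by exact_mod_cast hn)
  have hn0 : (0 : ℝ) < n := by linarith
  set ρ : ℝ := (n / (2 * C)) ^ α with hρ
  have hρ1 : 1 ≤ ρ := Real.one_le_rpow (by rw [le_div_iff₀ (by positivity)]; linarith) hα.le
  have hρk : ρ ^ (1 / α) = n / (2 * C) := by
    rw [hρ, ← Real.rpow_mul (by positivity)]
    have : α * (1 / α) = 1 := by field_simp
    rw [this, Real.rpow_one]
  set d : ℕ := ⌊ρ⌋₊ with hd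
  have hd1 : 1 ≤ d := by
    rw [hd, Nat.le_floor_iff (by linarith)]
    exact_mod_cast hρ1
  have hdr : (d : ℝ) ≤ ρ := Nat.floor_le (by linarith)
  have hdr2 : ρ / 2 ≤ d := by
    have h1 : ρ < d + 1 := Nat.lt_floor_add_one ρ
    have h2 : (1 : ℝ) ≤ d := by exact_mod_cast hd1
    linarith
  obtain ⟨m, I, hm, hmC, hI, hI', -, hcol⟩ := hC d hd1
  have hmn : 2 * m ≤ n := by
    have : ((2 * m : ℕ) : ℝ) ≤ n := by
      push_cast
      calc 2 * (m : ℝ) ≤ 2 * (C * (d : ℝ) ^ (1 / α)) := by linarith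
        _ ≤ 2 * (C * ρ ^ (1 / α)) := by gcongr
        _ = n := by rw [hρk]; field_simp
    exact_mod_cast this
  set k := n / (2 * m) with hk
  have hk1 : 1 ≤ k := Nat.div_pos hmn (by omega)
  have hkn : k * (2 * m) ≤ n := Nat.div_mul_le_self _ _
  have hkn2 : n < (k + 1) * (2 * m) := by
    have h1 := Nat.lt_mul_div_succ n (show 0 < 2 * m by omega)
    rw [← hk] at h1
    calc n < 2 * m * (k + 1) := h1
      _ = _ := by ring
  have h5 := ext_of_rel' (fun (x y : Fin m × Fin k) => x.2 = y.2 ∧ I x.1 y.1) hs ht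
    (copies' hs ht hI) (copies' ht hs hI')
    (show Fintype.card (Fin m × Fin k) + Fintype.card (Fin m × Fin k) ≤ n by
      rw [Fintype.card_prod, Fintype.card_fin, Fintype.card_fin]
      calc m * k + m * k = k * (2 * m) := by ring
        _ ≤ n := hkn)
  rw [cnt_copies hcol] at h5
  refine le_trans ?_ h5
  have h6 : (n : ℝ) ≤ 4 * (k * m) := by
    have h7 : n ≤ 4 * (k * m) := by nlinarith
    exact_mod_cast h7
  have h2 : (n : ℝ) ^ (1 + α) = n * (n : ℝ) ^ α := by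
    rw [Real.rpow_add hn0, Real.rpow_one]
  have h3 : ρ = (n : ℝ) ^ α / (2 * C) ^ α := by
    rw [hρ, Real.div_rpow hn0.le (by positivity)]
  have h4 : 1 / (8 * (2 * C) ^ α) * (n : ℝ) ^ (1 + α) = n * (ρ / 2) / 4 := by
    rw [h2, h3]
    have : (2 * C) ^ α ≠ 0 := by positivity
    field_simp
    norm_num
  rw [h4]
  have h8 : 0 ≤ ρ / 2 := by linarith
  nlinarith

end Q116.ZK
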