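import Pool.Agent.Q116.ZK.Forms

set_option autoImplicit false

/-!
Zarankiewicz problem for `K_{s,t}`: the form with matrices of sizes `x ^ a` and `x ^ b`.
-/

namespace Q116.ZK

open Finset Filter SimpleGraph Q116.KR

/-- `x ^ a` by `x ^ b` matrices without the all-ones submatrices of the sizes in `P`, and at least
`c x ^ (a + b - 1)` ones. -/
def ZF (P : ℕ → ℕ → Prop) (a b : ℕ) : Prop :=
  ∃ c : ℝ, 0 < c ∧ ∀ᶠ x : ℕ in atTop, ∃ R : Fin (x ^ a) → Fin (x ^ b) → Prop,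
    (∀ σ τ, 1 ≤ σ → 1 ≤ τ → P σ τ → NoST R σ τ) ∧
    c * (x : ℝ) ^ (a + b - 1) ≤ ({p : Fin (x ^ a) × Fin (x ^ b) | R p.1 p.2}.ncard : ℝ)

lemma ZZ.zf {P : ℕ → ℕ → Prop} {a b : ℕ} (ha : 1 ≤ a) (h : ZZ P a b) : ZF P a b := by
  classical
  obtain ⟨c, hc, y0, h⟩ := h
  refine ⟨c, hc, ?_⟩
  filter_upwards [eventually_ge_atTop (max 1 ⌈y0⌉₊)] with x hx
  have hx1 : 1 ≤ x := (le_max_left _ _).trans hx
  have hx0 : (0 : ℝ) < x := by exact_mod_cast hx1
  have hxy : y0 ≤ (x : ℝ) :=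
    (Nat.le_ceil _).trans (by exact_mod_cast (le_max_right _ _).trans hx)
  obtain ⟨A, B, iA, iB, R, h1, h2, h3, h4⟩ := h x hxy
  rw [Real.rpow_natCast] at h1 h2
  have h1' : Fintype.card A ≤ x ^ a := by exact_mod_cast h1
  have h2' : Fintype.card B ≤ x ^ b := by exact_mod_cast h2
  obtain ⟨f⟩ : Nonempty (A ↪ Fin (x ^ a)) :=
    Function.Embedding.nonempty_of_card_le (by rw [Fintype.card_fin]; exact h1')
  obtain ⟨g⟩ : Nonempty (B ↪ Fin (x ^ b)) :=
    Function.Embedding.nonempty_of_card_le (by rw [Fintype.card_fin]; exact h2')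
  refine ⟨fun i j => ∃ a b, f a = i ∧ g b = j ∧ R a b, ?_, ?_⟩
  · rintro σ τ hσ hτ hP ⟨a, b, ha, hb, hab⟩
    have q1 : ∀ i, ∃ a', f a' = a i := by
      intro i
      obtain ⟨a', b', h1, -, -⟩ := hab i ⟨0, by omega⟩
      exact ⟨a', h1⟩
    have q2 : ∀ j, ∃ b', g b' = b j := by
      intro j
      obtain ⟨a', b', -, h1, -⟩ := hab ⟨0, by omega⟩ j
      exact ⟨b', h1⟩
    choose a' ha' using q1
    choose b' hb' using q2
    refine h3 σ τ hP ⟨a', b', ?_, ?_, ?_⟩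
    · intro i j hij
      apply ha
      rw [← ha', ← ha', hij]
    · intro i j hij
      apply hb
      rw [← hb', ← hb', hij]
    · intro i j
      obtain ⟨a'', b'', k1, k2, k3⟩ := hab i j
      rw [← ha' i] at k1
      rw [← hb' j] at k2
      rwa [f.injective k1, g.injective k2] at k3
  · have e1 : (x : ℝ) ^ ((a : ℝ) + b - 1) = (x : ℝ) ^ (a + b - 1) := by
      rw [← Real.rpow_natCast, Nat.cast_sub (by omega)]
      push_cast
      rfl
    rw [cnt_eq_ncard, e1] at h4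
    refine h4.trans (le_of_eq ?_)
    have : {p : Fin (x ^ a) × Fin (x ^ b) | ∃ a b, f a = p.1 ∧ g b = p.2 ∧ R a b} =
        (fun p : A × B => (f p.1, g p.2)) '' {p : A × B | R p.1 p.2} := by
      ext ⟨i, j⟩
      constructor
      · rintro ⟨a, b, h1, h2, h3⟩
        exact ⟨(a, b), h3, by simp only [h1, h2]⟩
      · rintro ⟨⟨a, b⟩, h3, h1⟩
        exact ⟨a, b, congrArg Prod.fst h1, congrArg Prod.snd h1, h3⟩
    rw [this, Set.ncard_image_of_injective]
    rintro ⟨a, b⟩ ⟨a', b'⟩ h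
    exact Prod.ext (f.injective (congrArg Prod.fst h)) (g.injective (congrArg Prod.snd h))

/-- **Links of a solution for `K_{s,t}`.** -/
theorem LB.unb {s t : ℕ} (i j : ℕ) (hs : 2 ≤ s) (ht : 1 ≤ t) (hi : i + 2 ≤ s) (hj : j + 2 ≤ s)
    (h : LB s t s) : ZF (fun σ τ => (σ + i = s ∧ τ + j = t) ∨ (σ + i = t ∧ τ + j = s))
      (s - j) (s - i) := by
  have hs' : (2 : ℝ) ≤ s := by exact_mod_cast hs
  have hi' : (i : ℝ) + 2 ≤ s := by exact_mod_cast hi
  have hj' : (j : ℝ) + 2 ≤ s := by exact_mod_cast hj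
  have h1 := (h.zz (by omega) ht (by linarith)).both i j (by linarith) (by linarith)
    (by linarith)
  have h2 : ZZ (fun σ τ => (σ + i = s ∧ τ + j = t) ∨ (σ + i = t ∧ τ + j = s))
      ((s - j : ℕ) : ℝ) ((s - i : ℕ) : ℝ) := by
    rw [Nat.cast_sub (by omega), Nat.cast_sub (by omega)]
    exact h1
  exact h2.zf (by omega)

/-- and back to `K_{s,t}` -/
theorem LB.diag_nat {s t : ℕ} (i : ℕ) (hs : 2 ≤ s) (ht : 1 ≤ t)
    (h : LB (s + i) (t + i) ((s + i : ℕ) : ℝ)) : LB s t (s : ℝ) := by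
  have hs' : (2 : ℝ) ≤ s := by exact_mod_cast hs
  have h1 := LB.diag (κ := ((s + i : ℕ) : ℝ)) i (by omega) ht (by push_cast; linarith) h
  have : ((s + i : ℕ) : ℝ) - i = s := by push_cast; ring
  rwa [this] at h1

end Q116.ZK
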